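import Pool.Agent.U707.LI.All
import Pool.Agent.U707.LI.ES

/-!
# The Ramanujan bound from point counts at a set of places of positive density

`K` is a number field, `a v` the eigenvalues `θ(T_v)` of a Hecke character of weight two for
`GL_2` over `K`, and `R` a two-dimensional continuous representation of the Galois group over `ℚ̄_p`
(identified with `ℂ`), irreducible on every open subgroup, with the traces `a v` and with
determinants of absolute value `Nv` (the `p`-adic representation attached to the character), for `v`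
outside of a finite set `B`. `X_k` are finitely many smooth projective varieties over `K`, of any
dimensions, with good reduction outside of `B`. If `a_v = ∑ c_k #X_k(𝔽_v)`, with complex numbers
`c_k`, for the places `v` of a set of positive upper density, then `|a_v| ≤ 2 √Nv` for ALL places
`v` outside of `B`.

Parts of the proof are by helper140, helper784, helper187, helper612, helper200 (see
`Pool.Agent.U707.LI.All`).
-/

set_option autoImplicit false

namespace Pool.Agent.Results.MP_4819b8_nt.BoundFromCounts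

open NumberField IsDedekindDomain Module Pool.Agent.W401.Cheb Pool.Agent.U707 Pool.Agent.U707.LI

/-- the eigenvalues of the geometric Frobenius elements at `v` have absolute value `Nv ^ (w / 2)` -/
def WeightAt {K : Type} [Field K] [NumberField K] {p : ℕ} [Fact p.Prime] (θ : PadicAlgCl p ≃+* ℂ)
    (R : LI.Rep K (PadicAlgCl p)) (w : ℕ) (v : HeightOneSpectrum (𝓞 K)) : Prop :=
  ∀ φ, GeoFrob v φ → ∀ α : PadicAlgCl p, Module.End.HasEigenvalue (R.ρ φ) α →
    ‖θ α‖ ^ 2 = (Ideal.absNorm v.asIdeal : ℝ) ^ w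

/-- weights pass to subquotients on open subgroups -/
theorem weightAt_of {K : Type} [Field K] [NumberField K] {p : ℕ} [Fact p.Prime]
    (θ : PadicAlgCl p ≃+* ℂ) (R W : LI.Rep K (PadicAlgCl p)) (w : ℕ)
    (U : Subgroup (GK K)) [U.Normal] (hU : IsOpen (U : Set (GK K))) (hs : SubquotOn U R.ρ W.ρ)
    {v : HeightOneSpectrum (𝓞 K)} (hW : WeightAt θ W w v) : WeightAt θ R w v := by
  classical
  intro φ hφ α hα
  have hfin : Finite (GK K ⧸ U) := Subgroup.quotient_finite_of_isOpen U hU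
  obtain ⟨n, hn, hnU⟩ : ∃ n : ℕ, 0 < n ∧ φ ^ n ∈ U := by
    refine ⟨Nat.card (GK K ⧸ U), Nat.card_pos, ?_⟩
    have h1 : ((QuotientGroup.mk φ : GK K ⧸ U)) ^ Nat.card (GK K ⧸ U) = 1 := pow_card_eq_one'
    rw [← QuotientGroup.mk_pow, QuotientGroup.eq_one_iff] at h1
    exact h1
  obtain ⟨C, f, hf, hC⟩ := hs
  have hβ : Module.End.HasEigenvalue ((R.ρ φ) ^ n) (α ^ n) := hα.pow n
  have hβ' : Module.End.HasEigenvalue ((W.ρ φ) ^ n) (α ^ n) := by
    refine eig_quot ((R.ρ φ) ^ n) ((W.ρ φ) ^ n) C f hf ?_ hβ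
    intro x
    obtain ⟨y, h1, h2⟩ := hC _ hnU x
    rw [map_pow] at h1 h2
    exact ⟨y, h1, h2⟩
  obtain ⟨γ, hγ, hγ'⟩ := eig_pow (W.ρ φ) n hβ'
  have h2 := hW φ hφ γ hγ
  have h4 : ‖θ α‖ ^ n = ‖θ γ‖ ^ n := by
    rw [← norm_pow, ← norm_pow, ← map_pow, ← map_pow, hγ']
  rw [(pow_left_inj₀ (norm_nonneg _) (norm_nonneg _) hn.ne').1 h4, h2]

/-- two eigenvalues -/
theorem trace_det {V E : Type} [Field E] [IsAlgClosed E] [AddCommGroup V] [Module E V]
    [FiniteDimensional E V] (h2 : finrank E V = 2) (T : Module.End E V) :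
    ∃ α β, Module.End.HasEigenvalue T α ∧ Module.End.HasEigenvalue T β ∧
      LinearMap.trace E V T = α + β ∧ LinearMap.det T = α * β := by
  have hsp : T.charpoly.Splits := IsAlgClosed.splits _
  have hcard : Multiset.card T.charpoly.roots = 2 := by
    rw [← hsp.natDegree_eq_card_roots, LinearMap.charpoly_natDegree, h2]
  obtain ⟨α, β, h⟩ := Multiset.card_eq_two.1 hcard
  refine ⟨α, β, ?_, ?_, ?_, ?_⟩
  · rw [Module.End.hasEigenvalue_iff_isRoot_charpoly]
    have : α ∈ T.charpoly.roots := by rw [h]; simp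
    exact (Polynomial.mem_roots'.1 this).2
  · rw [Module.End.hasEigenvalue_iff_isRoot_charpoly]
    have : β ∈ T.charpoly.roots := by rw [h]; simp
    exact (Polynomial.mem_roots'.1 this).2
  · rw [Module.End.trace_eq_sum_roots_charpoly_of_splits hsp, h]
    simp
  · rw [Module.End.det_eq_prod_roots_charpoly_of_splits hsp, h]
    simp

/-- **The Ramanujan bound from point counts at a set of places of positive density.** -/
theorem result {K : Type} [Field K] [NumberField K] {p : ℕ} [Fact p.Prime]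
    (θ : PadicAlgCl p ≃+* ℂ) {B : Set (HeightOneSpectrum (𝓞 K))} (hB : B.Finite)
    -- the Hecke character and its Galois representation
    (a : HeightOneSpectrum (𝓞 K) → ℂ) (R : LI.Rep K (PadicAlgCl p))
    (hR : R.StronglyIrreducible) (h2 : finrank (PadicAlgCl p) R.V = 2)
    (ha : ∀ v ∉ B, ∀ φ, GeoFrob v φ → θ (R.tr φ) = a v)
    (hdet : ∀ v ∉ B, ∀ φ, GeoFrob v φ →
      ‖θ (LinearMap.det (R.ρ φ))‖ = Ideal.absNorm v.asIdeal)
    -- the varieties
    {κ : Type} [Fintype κ] (d : κ → ℕ) (H : κ → ℕ → LI.Rep K (PadicAlgCl p))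
    (hH : ∀ v ∉ B, ∀ k, ∀ j : ℕ, WeightAt θ (H k j) j v)
    (cnt : κ → HeightOneSpectrum (𝓞 K) → ℤ)
    (hcnt : ∀ v ∉ B, ∀ φ, GeoFrob v φ → ∀ k,
      (cnt k v : PadicAlgCl p) = ∑ j ∈ Finset.range (2 * d k + 1), (-1) ^ j * (H k j).tr φ)
    -- the relation
    (c : κ → ℂ) {P : Set (HeightOneSpectrum (𝓞 K))} (hP : PosDensity P)
    (h : ∀ v ∈ P, a v = ∑ k, c k * cnt k v) :
    ∀ v ∉ B, ‖a v‖ ≤ 2 * Real.sqrt (Ideal.absNorm v.asIdeal) := by
  classical
  have hP' : PosDensity (P \ B) := hP.mono hB fun v hv hvB => ⟨hv, hvB⟩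
  obtain ⟨⟨k, j⟩, hc, U, hUn, hUo, hsU, hs⟩ := geo sHAAR sCHEB sTRANS sIND sFR R hR
    (fun x : Σ k, Fin (2 * d k + 1) => H x.1 x.2)
    (fun x => θ.symm (c x.1) * (-1) ^ (x.2 : ℕ)) hP' (by
      rintro v ⟨hv, hvB⟩ φ hφ
      have h1 : R.tr φ = θ.symm (a v) := by rw [← ha v hvB φ hφ, RingEquiv.symm_apply_apply]
      rw [h1, h v hv, map_sum, Fintype.sum_sigma]
      refine Finset.sum_congr rfl fun k _ => ?_
      rw [map_mul, map_intCast, hcnt v hvB φ hφ k, Finset.mul_sum, Finset.sum_range]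
      refine Finset.sum_congr rfl fun j _ => ?_
      ring)
  have := hUn
  have hw : ∀ v ∉ B, WeightAt θ R (j : ℕ) v := fun v hv =>
    weightAt_of θ R (H k j) j U hUo hsU (hH v hv k j)
  intro v hv
  obtain ⟨σ, hσ⟩ := Pool.Agent.W401.Frob.exists_frob v
  have hφ : GeoFrob v σ⁻¹ := by
    unfold GeoFrob
    rwa [inv_inv]
  obtain ⟨α, β, hα, hβ, htr, hdt⟩ := trace_det h2 (R.ρ σ⁻¹)
  have hα' := hw v hv _ hφ α hα
  have hβ' := hw v hv _ hφ β hβ
  have hd := hdet v hv _ hφ
  rw [hdt, map_mul, norm_mul] at hd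
  have hj : (Ideal.absNorm v.asIdeal : ℝ) ^ (j : ℕ) = Ideal.absNorm v.asIdeal := by
    have h4 : ((Ideal.absNorm v.asIdeal : ℝ) ^ (j : ℕ)) ^ 2 = (‖θ α‖ * ‖θ β‖) ^ 2 := by
      rw [mul_pow, hα', hβ', sq]
    have h3 : ((Ideal.absNorm v.asIdeal : ℝ) ^ (j : ℕ)) ^ 2 =
        (Ideal.absNorm v.asIdeal : ℝ) ^ 2 := by rw [h4, hd]
    exact (pow_left_inj₀ (by positivity) (by positivity) two_ne_zero).1 h3
  have hα2 : ‖θ α‖ = Real.sqrt (Ideal.absNorm v.asIdeal) := by
    rw [← hj, ← hα', Real.sqrt_sq (norm_nonneg _)]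
  have hβ2 : ‖θ β‖ = Real.sqrt (Ideal.absNorm v.asIdeal) := by
    rw [← hj, ← hβ', Real.sqrt_sq (norm_nonneg _)]
  rw [← ha v hv _ hφ]
  have h5 : R.tr σ⁻¹ = α + β := htr
  rw [h5, map_add]
  refine (norm_add_le _ _).trans ?_
  rw [hα2, hβ2]
  linarith

end Pool.Agent.Results.MP_4819b8_nt.BoundFromCounts
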