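import Pool.Agent.U253.MF.Gap
import Pool.Agent.U253.MF.Adj

/-!
# Relations between weight two characters of `GL₂` over different number fields

Let `θ_i`, `i ∈ I`, be finitely many nontrivial (cuspidal) weight two characters of the Hecke algebras of `GL₂` over number
fields `K_i`, which may all be different, `θ_i(T_v) = √(N v) (α_i v + β_i v)` and `θ_i(S_v) = α_i v β_i v` for the places `v`
above the rational primes `p` outside a finite set `S`. Let `P_i` be real polynomials. The L-functions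
`L(s, Ad^k θ_i)` of the representations of dimension `2k + 1` of `SO(3)` are supposed to have a continuation and a functional equation
for `k ≤ deg P_i`; this is known for `k ≤ 4` (Gelbart and Jacquet for `k = 1`, Kim and Shahidi, Rankin and Selberg).

Suppose that the ONE relation `∑_i ∑_{v ∣ p in K_i, deg v = 1} P_i(|θ_i(T_v)|² / N v) = 0` holds on average, i.e. up to an error
`g(p)` with `∑_{p < X} g(p) log p = o(√X)`. Then

1. `∑_i [K_i : ℚ] P_i = 0` as a polynomial. So there is no such relation for one character;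
2. the relation holds EXACTLY above every `p ∉ S`, and for all powers of the parameters;
3. (maximum principle) for every `p ∉ S` and `R ≥ 1`, if `max(|α_i v|, |β_i v|)^{deg P_i} ≤ R^{deg v}`
   for all `v ∣ p` and all `i` for which `P_i` has a negative leading coefficient, then this holds for all `i` and all `v ∣ p`;
4. for every `p ∉ S`, if `|θ_i(T_v)| ≤ 2 √(N v)` for all `v ∣ p` and all `i` for which `P_i` has a negative leading coefficient, then
   this holds for all `i` (with `P_i` not constant) and all `v ∣ p`.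

If the fields `K_i` with a negative leading coefficient are totally real or CM then the bound is known for these `θ_i`, so all
the `θ_i` satisfy it, whatever the fields `K_i` are.
-/

set_option autoImplicit false

open Filter Topology Asymptotics NumberField Polynomial

namespace Pool.Agent.Results.MP_4819b8_nt.RelationsBetweenFields

/-- `∏_{m ∈ κ} Γ_ℝ(s + m)⁻¹`, `Γ_ℝ(s) = π^{-s/2} Γ(s/2)` -/
noncomputable def invGamma (κ : Multiset ℂ) (s : ℂ) : ℂ :=
  (κ.map fun m => (Complex.Gammaℝ (s + m))⁻¹).prod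

/-- `∏_{(p, b) ∈ l} (1 - b p^{-s})` -/
noncomputable def finEuler (l : List (ℕ × ℂ)) (s : ℂ) : ℂ :=
  (l.map fun x => 1 - x.2 * (x.1 : ℂ) ^ (-s)).prod

/-- the places of `K` above the rational prime `p`: the prime ideals `v` of `𝓞 K` which contain `p` -/
noncomputable def places (K : Type) [Field K] [NumberField K] (p : ℕ) : Finset (Ideal (𝓞 K)) :=
  IsDedekindDomain.primesOverFinset (Ideal.span {(p : ℤ)}) (𝓞 K)

/-- the residue degree of the place `v` above `p`: `N(v) = p^{degree p v}` -/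
noncomputable def degree {K : Type} [Field K] [NumberField K] (p : ℕ) (v : Ideal (𝓞 K)) : ℕ :=
  (Ideal.span {(p : ℤ)}).inertiaDeg' v

/-- the Euler factor above `p` of `L(s, Ad^k θ)`: `∏_{v ∣ p} ∏_{|j| ≤ k} (1 - (α v / β v)^j N(v)^{-s})⁻¹` -/
noncomputable def adjointFactor (K : Type) [Field K] [NumberField K] (α β : Ideal (𝓞 K) → ℂ)
    (k p : ℕ) (s : ℂ) : ℂ :=
  ∏ v ∈ places K p, ∏ j ∈ Finset.range (2 * k + 1),
    (1 - (α v / β v) ^ ((j : ℤ) - k) * (Ideal.absNorm v : ℂ) ^ (-s))⁻¹

/-- the Euler product `∏_{p ∉ S} F p s` extends to the meromorphic function `N/D` on `ℂ` -/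
structure Continuation (S : Finset ℕ) (F : ℕ → ℂ → ℂ) (N D : ℂ → ℂ) : Prop where
  /-- `N` is entire -/
  entire_N : Differentiable ℂ N
  /-- `D` is entire -/
  entire_D : Differentiable ℂ D
  /-- `N` and `D` are of order at most `3/2` -/
  order : ∃ C : ℝ, ∀ s, ‖N s‖ ≤ Real.exp (C * (1 + ‖s‖) ^ (3 / 2 : ℝ)) ∧
    ‖D s‖ ≤ Real.exp (C * (1 + ‖s‖) ^ (3 / 2 : ℝ))
  /-- `D` has no zeros in `Re s > 1` -/
  ne_zero : ∀ s : ℂ, 1 < s.re → D s ≠ 0
  /-- the partial Euler products converge to `N/D` in `Re s > 1` -/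
  euler : ∀ s : ℂ, 1 < s.re → Tendsto (fun X : ℕ =>
    ∏ p ∈ (Finset.range X).filter (fun p => p.Prime ∧ p ∉ S), F p s) atTop (𝓝 (N s / D s))

/-- the functional equation `Λ(s) = ε Λ(1 - s)` of the self dual L-function
`Λ(s) = q^s (invGamma κ s · finEuler l s)⁻¹ · finEuler l' s · N s / D s`; the finite products are the Euler factors above `S` -/
def FunctionalEquation (S : Finset ℕ) (κ : Multiset ℂ) (N D : ℂ → ℂ) : Prop :=
  ∃ (l l' : List (ℕ × ℂ)) (q : ℝ) (ε : ℂ), 0 < q ∧ ε ≠ 0 ∧
    (∀ x ∈ l, x.1.Prime ∧ x.1 ∈ S) ∧ (∀ x ∈ l', x.1.Prime ∧ x.1 ∈ S) ∧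
    ∀ s, (q : ℂ) ^ s * invGamma κ (1 - s) * finEuler l (1 - s) * finEuler l' s * (N s * D (1 - s)) =
      ε * (q : ℂ) ^ (1 - s) * invGamma κ s * finEuler l s * finEuler l' (1 - s) * (N (1 - s) * D s)

/-- the shifts of `∏_{1 ≤ j ≤ k} Γ_ℂ(s + j)`: `j` and `j + 1` -/
noncomputable def steps (k : ℕ) : Multiset ℂ := (Multiset.range k).bind fun j => {(j : ℂ) + 1, (j : ℂ) + 2}

/-- the gamma factors of `L(s, Ad^k θ)` in weight two: `Γ_ℝ(s + (k mod 2)) ∏_{1 ≤ j ≤ k} Γ_ℂ(s + j)` at every real place and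
`Γ_ℂ(s) ∏_{1 ≤ j ≤ k} Γ_ℂ(s + j)²` at every complex place, `Γ_ℂ(s) = Γ_ℝ(s) Γ_ℝ(s + 1)` -/
noncomputable def shifts (K : Type) [Field K] [NumberField K] (k : ℕ) : Multiset ℂ :=
  InfinitePlace.nrRealPlaces K • ({((k % 2 : ℕ) : ℂ)} + steps k) +
    InfinitePlace.nrComplexPlaces K • ({0} + {1} + 2 • steps k)

/-- the properties of `θ` which are used -/
structure WeightTwo (K : Type) [Field K] [NumberField K] (m : ℕ) (S : Finset ℕ)
    (α β : Ideal (𝓞 K) → ℂ) : Prop where
  /-- the local components are unitary: `{α v, β v}` is the set of the conjugate inverses -/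
  unitary : ∀ p : ℕ, p.Prime → p ∉ S → ∀ v ∈ places K p,
    (‖α v‖ = 1 ∧ ‖β v‖ = 1) ∨ (starRingEnd ℂ) (α v) * β v = 1
  /-- `L(s, Ad^k θ)` continues and has the functional equation, with the gamma factors of weight two, for `k ≤ m` -/
  nice : ∀ k ≤ m, ∃ N D : ℂ → ℂ, Continuation S (adjointFactor K α β k) N D ∧
    FunctionalEquation S (shifts K k) N D

section arch

open Pool.Agent.U253.SPL

theorem steps_sum (k : ℕ) (z : ℂ) :
    ((steps k).map (con z)).sum = ∑ j ∈ Finset.range k, Tc z ((j : ℂ) + 1) := by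
  unfold steps
  rw [Multiset.map_bind, Multiset.sum_bind]
  show ∑ j ∈ Finset.range k, _ = _
  refine Finset.sum_congr rfl fun j _ => ?_
  have h := con_pair z ((j : ℂ) + 1)
  rw [← h]
  simp only [Multiset.insert_eq_cons, Multiset.map_cons, Multiset.map_singleton, Multiset.sum_cons,
    Multiset.sum_singleton]
  congr 2
  ring

theorem sym_sum (k : ℕ) (z : ℂ) : ∑ j ∈ Finset.range (2 * k + 1), Tc z ((j : ℂ) - k) =
    Tc z 0 + 2 * ∑ j ∈ Finset.range k, Tc z ((j : ℂ) + 1) := by
  induction k with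
  | zero => simp
  | succ k ih =>
    rw [show 2 * (k + 1) + 1 = (2 * k + 1) + 1 + 1 by ring, Finset.sum_range_succ, Finset.sum_range_succ',
      Finset.sum_range_succ (fun j : ℕ => Tc z ((j : ℂ) + 1)) k]
    have e1 : ∑ j ∈ Finset.range (2 * k + 1), Tc z (((j + 1 : ℕ) : ℂ) - ((k + 1 : ℕ) : ℂ)) =
        ∑ j ∈ Finset.range (2 * k + 1), Tc z ((j : ℂ) - k) := by
      refine Finset.sum_congr rfl fun j _ => ?_
      congr 1
      push_cast
      ring
    have e2 : Tc z (((0 : ℕ) : ℂ) - ((k + 1 : ℕ) : ℂ)) = Tc z ((k : ℂ) + 1) := by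
      rw [← Tc_neg]
      congr 1
      push_cast
      ring
    have e3 : Tc z (((2 * k + 1 + 1 : ℕ) : ℂ) - ((k + 1 : ℕ) : ℂ)) = Tc z ((k : ℂ) + 1) := by
      congr 1
      push_cast
      ring
    rw [e1, e2, e3, ih]
    ring

theorem shifts_sum (K : Type) [Field K] [NumberField K] (k : ℕ) (z : ℂ) :
    ((shifts K k).map (con z)).sum + ((shifts K k).map (con z)).sum =
      (Module.finrank ℚ K : ℝ) * ∑ j ∈ Finset.range (2 * k + 1), Tc z ((j : ℂ) - k) := by
  have h0 : con z 0 + con z 1 = Tc z 0 := by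
    have := con_pair z 0
    rwa [zero_add] at this
  have h1 : con z ((k % 2 : ℕ) : ℂ) + con z ((k % 2 : ℕ) : ℂ) = Tc z 0 := by
    have := con_real z 0 (k : ℤ)
    rw [zero_add, neg_zero, zero_add] at this
    have e : ((((k : ℤ) % 2 : ℤ)) : ℂ) = ((k % 2 : ℕ) : ℂ) := rfl
    rwa [e] at this
  have h2 := InfinitePlace.card_add_two_mul_card_eq_rank K
  unfold shifts
  rw [sym_sum, ← h2]
  simp only [Multiset.map_add, Multiset.sum_add, Multiset.map_nsmul, Multiset.sum_nsmul,
    Multiset.map_singleton, Multiset.sum_singleton, steps_sum, nsmul_eq_mul]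
  push_cast
  linear_combination (InfinitePlace.nrRealPlaces K : ℝ) * h1 + 2 * (InfinitePlace.nrComplexPlaces K : ℝ) * h0

/-- the exponents, `d` times -/
noncomputable def expo (d k : ℕ) : List ℂ :=
  (List.range d).flatMap fun _ => (List.range (2 * k + 1)).map fun j : ℕ => (j : ℂ) - k

theorem expo_sum (d k : ℕ) (F : ℂ → ℝ) :
    ((expo d k).map F).sum = (d : ℝ) * ∑ j ∈ Finset.range (2 * k + 1), F ((j : ℂ) - k) := by
  unfold expo
  rw [Pool.Agent.U253.NFD.sum_flat']
  simp only [List.map_map]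
  rw [List.map_const', List.sum_replicate, List.length_range, nsmul_eq_mul]
  congr 1

open Classical in
theorem count_level (t k : ℕ) : ∑ j ∈ Finset.range (2 * k + 1),
    ((if (j : ℂ) - k = t then (1 : ℝ) else 0) + if -((j : ℂ) - k) = t then 1 else 0) =
    if t ≤ k then 2 else 0 := by
  have e1 : ∀ j : ℕ, ((j : ℂ) - k = t ↔ j = k + t) := by
    intro j
    rw [sub_eq_iff_eq_add, add_comm]
    exact_mod_cast Iff.rfl
  have e2 : ∀ j : ℕ, (-((j : ℂ) - k) = t ↔ j + t = k) := by
    intro j
    rw [neg_sub, sub_eq_iff_eq_add]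
    constructor
    · intro h
      have : (k : ℂ) = ((t + j : ℕ) : ℂ) := by push_cast; exact h
      have := Nat.cast_injective this
      omega
    · intro h
      rw [← h]
      push_cast
      ring
  simp only [e1, e2]
  rw [Finset.sum_add_distrib, Finset.sum_ite_eq']
  by_cases ht : t ≤ k
  · rw [if_pos (Finset.mem_range.2 (by omega)), if_pos ht]
    have e3 : ∀ j : ℕ, (j + t = k ↔ j = k - t) := fun j => by omega
    simp only [e3]
    rw [Finset.sum_ite_eq', if_pos (Finset.mem_range.2 (by omega))]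
    norm_num
  · rw [if_neg (fun h => ht (by have := Finset.mem_range.1 h; omega)), if_neg ht, zero_add]
    refine Finset.sum_eq_zero fun j _ => if_neg fun h => ht (by omega)

end arch

/-- **Relations between weight two characters over different number fields.** -/
theorem result {I : Type} [Fintype I] (K : I → Type) [∀ i, Field (K i)] [∀ i, NumberField (K i)]
    (S : Finset ℕ) (α β : (i : I) → Ideal (𝓞 (K i)) → ℂ) (P : I → ℝ[X])
    (hθ : ∀ i, WeightTwo (K i) (P i).natDegree S (α i) (β i))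
    (g : ℕ → ℝ) (B : ℝ) (hg : ∀ p, 0 ≤ g p)
    (hs : (fun X : ℕ => ∑ p ∈ (Finset.range X).filter (fun p => p.Prime ∧ p ∉ S),
      g p * Real.log p) =o[atTop] (fun X : ℕ => √(X : ℝ)))
    (h : ∀ p : ℕ, p.Prime → p ∉ S →
      ((∀ i, ∀ v ∈ places (K i) p, ‖α i v + β i v‖ ≤ B) ∧
        |∑ i, ∑ v ∈ (places (K i) p).filter (fun v => degree p v = 1),
          (P i).eval (‖α i v + β i v‖ ^ 2)| ≤ g p) ∨
      (1 ≤ g p ∧ ∀ i, ∀ v ∈ places (K i) p,
        ‖α i v + β i v‖ ^ (2 * (P i).natDegree) ≤ g p ^ degree p v)) :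
    -- the polynomials
    (∑ i, (Module.finrank ℚ (K i) : ℝ) • P i = 0) ∧
    -- the relation is exact above every prime, for all powers
    (∀ p : ℕ, p.Prime → p ∉ S → ∀ n : ℕ, 0 < n →
      ∑ i, ∑ v ∈ (places (K i) p).filter (fun v => degree p v ∣ n),
        (degree p v : ℝ) *
          (P i).eval (‖α i v ^ (n / degree p v) + β i v ^ (n / degree p v)‖ ^ 2) = 0) ∧
    -- the maximum principle
    (∀ p : ℕ, p.Prime → p ∉ S → ∀ R : ℝ, 1 ≤ R →
      (∀ i, (P i).leadingCoeff < 0 → ∀ v ∈ places (K i) p,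
        max ‖α i v‖ ‖β i v‖ ^ (P i).natDegree ≤ R ^ degree p v) →
      ∀ i, ∀ v ∈ places (K i) p, max ‖α i v‖ ‖β i v‖ ^ (P i).natDegree ≤ R ^ degree p v) ∧
    -- the bound of Ramanujan and Petersson
    (∀ p : ℕ, p.Prime → p ∉ S →
      (∀ i, 0 < (P i).natDegree → (P i).leadingCoeff < 0 → ∀ v ∈ places (K i) p, ‖α i v + β i v‖ ≤ 2) →
      ∀ i, 0 < (P i).natDegree → ∀ v ∈ places (K i) p, ‖α i v + β i v‖ ≤ 2) := by
  classical
  choose c hc1 hc2 hc3 using fun i => Pool.Agent.U253.MF.expand (P i).natDegree (P i) le_rfl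
  have hU : ∀ i, ∀ p : ℕ, p.Prime → p ∉ S → ∀ v ∈ places (K i) p, Pool.Agent.U253.MF.Uni (α i v) (β i v) :=
    fun i p hp hpS v hv => (hθ i).unitary p hp hpS v hv
  have hdeg : ∀ i, ∀ p : ℕ, p.Prime → ∀ v ∈ places (K i) p,
      Pool.Agent.U253.NFD.fdeg (K i) v = degree p v :=
    fun i p hp v hv => Pool.Agent.U253.NFD.fdeg_eq (K i) hp hv
  have hf : ∀ i, ∀ p : ℕ, p.Prime → ∀ v ∈ places (K i) p, 0 < Pool.Agent.U253.NFD.fdeg (K i) v := by
    intro i p hp v hv
    rw [hdeg i p hp v hv]
    exact ((Pool.Agent.U253.NFD.places_facts (K i) hp).1 v hv).1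
  have hy : ∀ i, ∀ p : ℕ, p.Prime → p ∉ S → ∀ v ∈ places (K i) p, α i v / β i v ≠ 0 :=
    fun i p hp hpS v hv => div_ne_zero (hU i p hp hpS v hv).ne.1 (hU i p hp hpS v hv).ne.2
  let Q : Type := Σ i : I, Fin ((P i).natDegree + 1)
  let ι : Q → Type := fun q => Ideal (𝓞 (K q.1))
  let V : ∀ q : Q, ℕ → Finset (ι q) := fun q p => places (K q.1) p
  let f : ∀ q : Q, ι q → ℕ := fun q => Pool.Agent.U253.NFD.fdeg (K q.1)
  let E : ∀ q : Q, ι q → List ℂ := fun q v => Pool.Agent.U253.MF.adj q.2 (α q.1 v / β q.1 v)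
  let cc : Q → ℝ := fun q => c q.1 q.2
  -- sums over `Q`
  have hsum : ∀ F : (i : I) → ℕ → ℂ, ∑ q : Q, F q.1 q.2 = ∑ i, ∑ k ∈ Finset.range ((P i).natDegree + 1), F i k := by
    intro F
    rw [Fintype.sum_sigma]
    exact Finset.sum_congr rfl fun i _ => Fin.sum_univ_eq_sum_range (fun k => F i k) _
  -- values of the polynomials
  have hval : ∀ (i : I) {a b : ℂ}, Pool.Agent.U253.MF.Uni a b →
      (((P i).eval (‖a + b‖ ^ 2) : ℝ) : ℂ) = ∑ k ∈ Finset.range ((P i).natDegree + 1),
        (c i k : ℂ) * (Pool.Agent.U253.MF.adj k (a / b)).sum := by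
    intro i a b hab
    exact Pool.Agent.U253.MF.eval_expand (hc3 i) (div_ne_zero hab.ne.1 hab.ne.2) hab.sq
  set M : ℕ := ∑ i, (P i).natDegree with hM
  have hdM : ∀ i, (P i).natDegree ≤ M := fun i =>
    Finset.single_le_sum (f := fun i => (P i).natDegree) (fun _ _ => Nat.zero_le _) (Finset.mem_univ i)
  have hlen : ∀ q : Q, ∀ p : ℕ, p.Prime → p ∉ S →
      (Pool.Agent.U253.MF.LL V f E p q).length ≤ Module.finrank ℚ (K q.1) * (2 * q.2 + 1) := by
    intro q p hp _
    have h1 := Pool.Agent.U253.NFD.lstE_sum (V q p) (f q) (E q) (fun _ => (1 : ℕ))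
    have h2 : ((Pool.Agent.U253.NFD.lstE (V q p) (f q) (E q)).map fun _ => (1 : ℕ)).sum =
        (Pool.Agent.U253.MF.LL V f E p q).length := by
      rw [List.map_const', List.sum_replicate, smul_eq_mul, mul_one]
      rfl
    rw [← h2, h1]
    calc ∑ v ∈ V q p, ((E q v).map fun a => ((Pool.Agent.U253.NFD.blk (f q v) a).map fun _ => (1 : ℕ)).sum).sum =
        ∑ v ∈ V q p, (2 * q.2 + 1) * f q v := by
          refine Finset.sum_congr rfl fun v hv => ?_
          have h3 : ∀ a : ℂ, ((Pool.Agent.U253.NFD.blk (f q v) a).map fun _ => (1 : ℕ)).sum = f q v := by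
            intro a
            rw [List.map_const', List.sum_replicate, smul_eq_mul, mul_one,
              Pool.Agent.U253.NFD.blk_len (hf q.1 p hp v hv)]
          simp only [h3]
          rw [List.map_const', List.sum_replicate, smul_eq_mul, Pool.Agent.U253.MF.adj_len]
      _ = (2 * q.2 + 1) * ∑ v ∈ V q p, f q v := by rw [Finset.mul_sum]
      _ ≤ Module.finrank ℚ (K q.1) * (2 * q.2 + 1) := by
          rw [mul_comm]
          refine Nat.mul_le_mul_right _ ?_
          have h4 := (Pool.Agent.U253.NFD.places_facts (K q.1) hp).2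
          refine le_of_eq_of_le (Finset.sum_congr rfl fun v hv => ?_) h4
          exact hdeg q.1 p hp v hv
  have hnice : ∀ q : Q, ∃ N D : ℂ → ℂ, Continuation S (adjointFactor (K q.1) (α q.1) (β q.1) q.2) N D ∧
      FunctionalEquation S (shifts (K q.1) q.2) N D :=
    fun q => (hθ q.1).nice q.2 (Nat.lt_succ_iff.1 q.2.2)
  choose N D hCont hFE using hnice
  have hgi : ∀ (κ : Multiset ℂ) (s : ℂ), invGamma κ s = Pool.Agent.N210.FV.gi κ.toList s := by
    intro κ s
    unfold invGamma
    conv_lhs => rw [← Multiset.coe_toList κ, Multiset.map_coe, Multiset.prod_coe]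
    rfl
  have hfac : ∀ (q : Q) (p : ℕ), p.Prime → ∀ s : ℂ, adjointFactor (K q.1) (α q.1) (β q.1) q.2 p s =
      ∏ v ∈ V q p, ((E q v).map fun a => (1 - a * ((p : ℂ) ^ (-s)) ^ f q v)⁻¹).prod := by
    intro q p hp s
    unfold adjointFactor
    refine Finset.prod_congr rfl fun v hv => ?_
    rw [Pool.Agent.U253.MF.adj_prod, ← Pool.Agent.U253.NFD.norm_cpow (K q.1) hp hv s]
  have hbdd : ∀ i, ∀ p : ℕ, p.Prime → p ∉ S → ∀ v ∈ places (K i) p, ∀ k : ℕ, ∀ C : ℝ, 1 ≤ C →
      ‖α i v + β i v‖ ≤ C → ∀ a ∈ Pool.Agent.U253.MF.adj k (α i v / β i v), ‖a‖ ≤ (C ^ 2) ^ k := by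
    intro i p hp hpS v hv k C hC hab a ha
    obtain ⟨-, -, h3, h4, h5, -, -⟩ := (hU i p hp hpS v hv).size
    have h6 : max ‖α i v‖ ‖β i v‖ ^ 2 ≤ C ^ 2 :=
      pow_le_pow_left₀ ((norm_nonneg _).trans (le_max_left _ _)) (h5.trans (max_le hC hab)) 2
    exact Pool.Agent.U253.MF.adj_norm (one_le_pow₀ hC) (h3.trans h6) (h4.trans h6) a ha
  obtain ⟨hz, harch⟩ := Pool.Agent.U253.MF.gap_multi (Q := Q) (ι := ι)
    (n := fun q => Module.finrank ℚ (K q.1) * (2 * q.2 + 1)) (c := cc) (S := S) (V := V) (f := f) (E := E)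
    (m := fun q => (shifts (K q.1) q.2).toList) (m' := fun q => (shifts (K q.1) q.2).toList) (N := N) (D := D)
    (N' := N) (D' := D) (g := g) (B := ((max 1 B) ^ 2) ^ M)
    (fun q p hp _ v hv => hf q.1 p hp v hv) hlen
    (fun q p hp hpS v hv => Pool.Agent.U253.MF.adj_herm _ (hU q.1 p hp hpS v hv).real)
    (fun q => by
      obtain ⟨a1, a2, a3, a4, a5⟩ := hCont q
      refine ⟨a1, a2, a3, a4, fun s hs => (a5 s hs).congr fun X => Finset.prod_congr rfl fun p hp => ?_⟩
      exact hfac q p (Finset.mem_filter.1 hp).2.1 s) (fun q => by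
      obtain ⟨a1, a2, a3, a4, a5⟩ := hCont q
      refine ⟨a1, a2, a3, a4, fun s hs => (a5 s hs).congr fun X => Finset.prod_congr rfl fun p hp => ?_⟩
      rw [hfac q p (Finset.mem_filter.1 hp).2.1 s]
      refine Finset.prod_congr rfl fun v _ => ?_
      exact (Pool.Agent.U253.MF.adj_prod_inv _ _ fun a => (1 - a * ((p : ℂ) ^ (-s)) ^ f q v)⁻¹).symm) (fun q => by
      obtain ⟨l, l', q', ε, hq, hε, b1, b2, hfe⟩ := hFE q
      refine ⟨l, l', l, l', q', ε, hq, hε, b1, b2, b1, b2, fun s => ?_⟩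
      have h1 := hfe s
      rw [hgi, hgi] at h1
      exact h1) hg hs (fun p hp hpS => by
      rcases h p hp hpS with ⟨h1, h2⟩ | ⟨h1, h2⟩
      · left
        constructor
        · intro q v hv a ha
          have h3 := hbdd q.1 p hp hpS v hv q.2 (max 1 B) (le_max_left _ _)
            ((h1 q.1 v hv).trans (le_max_right _ _)) a ha
          refine h3.trans (pow_le_pow_right₀ (one_le_pow₀ (le_max_left _ _)) ?_)
          exact (Nat.lt_succ_iff.1 q.2.2).trans (hdM q.1)
        · have e : ∑ q : Q, (cc q : ℂ) * ∑ v ∈ (V q p).filter (fun v => f q v = 1), (E q v).sum =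
              ((∑ i, ∑ v ∈ (places (K i) p).filter (fun v => degree p v = 1),
                (P i).eval (‖α i v + β i v‖ ^ 2) : ℝ) : ℂ) := by
            refine (hsum fun i k => (c i k : ℂ) * ∑ v ∈ (places (K i) p).filter
              (fun v => Pool.Agent.U253.NFD.fdeg (K i) v = 1),
              (Pool.Agent.U253.MF.adj k (α i v / β i v)).sum).trans ?_
            rw [Complex.ofReal_sum]
            refine Finset.sum_congr rfl fun i _ => ?_
            rw [Complex.ofReal_sum, Finset.filter_congr fun v hv => by rw [hdeg i p hp v hv]]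
            simp only [Finset.mul_sum]
            rw [Finset.sum_comm]
            refine Finset.sum_congr rfl fun v hv => ?_
            exact (hval i (hU i p hp hpS v (Finset.mem_filter.1 hv).1)).symm
          rw [e, Complex.norm_real]
          exact h2
      · right
        intro q v hv a ha
        have h3 := hbdd q.1 p hp hpS v hv q.2 (max 1 ‖α q.1 v + β q.1 v‖) (le_max_left _ _)
            (le_max_right _ _) a ha
        have h4 : 1 ≤ g p ^ f q v := one_le_pow₀ h1
        refine (h3.trans (pow_le_pow_right₀ (one_le_pow₀ (le_max_left _ _)) (Nat.lt_succ_iff.1 q.2.2))).trans ?_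
        rw [← pow_mul]
        rcases le_total 1 ‖α q.1 v + β q.1 v‖ with h5 | h5
        · rw [max_eq_right h5]
          refine (h2 q.1 v hv).trans (le_of_eq ?_)
          rw [← hdeg q.1 p hp v hv]
        · rw [max_eq_left h5, one_pow]
          exact h4)
  have hmax : ∀ p : ℕ, p.Prime → p ∉ S → ∀ R : ℝ, 1 ≤ R →
      (∀ i, (P i).leadingCoeff < 0 → ∀ v ∈ places (K i) p,
        max ‖α i v‖ ‖β i v‖ ^ (P i).natDegree ≤ R ^ degree p v) →
      ∀ i, ∀ v ∈ places (K i) p, max ‖α i v‖ ‖β i v‖ ^ (P i).natDegree ≤ R ^ degree p v := by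
    intro p hp hpS R hR hneg
    have hR0 : 0 < R := zero_lt_one.trans_le hR
    -- the levels
    set lam : (i : I) → Ideal (𝓞 (K i)) → ℝ := fun i v =>
      (P i).natDegree * |Real.log ‖α i v / β i v‖| / Pool.Agent.U253.NFD.fdeg (K i) v with hlam
    have hfR : ∀ i, ∀ v ∈ places (K i) p, (0 : ℝ) < Pool.Agent.U253.NFD.fdeg (K i) v :=
      fun i v hv => by exact_mod_cast hf i p hp v hv
    have hiff : ∀ i, ∀ v ∈ places (K i) p, (max ‖α i v‖ ‖β i v‖ ^ (P i).natDegree ≤ R ^ degree p v ↔
        lam i v ≤ 2 * Real.log R) := by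
      intro i v hv
      obtain ⟨h1, h2, -⟩ := (hU i p hp hpS v hv).size
      have h3 : 0 < max ‖α i v‖ ‖β i v‖ := zero_lt_one.trans_le h1
      rw [← Real.log_le_log_iff (pow_pos h3 _) (pow_pos hR0 _), Real.log_pow, Real.log_pow, hlam]
      simp only
      rw [h2, div_le_iff₀ (hfR i v hv), hdeg i p hp v hv]
      constructor <;> intro h4 <;> nlinarith
    by_contra hcon
    push Not at hcon
    obtain ⟨i₀, v₀, hv₀, hlt⟩ := hcon
    set Λ : Finset ℝ := Finset.univ.biUnion fun i => (places (K i) p).image (lam i) with hΛ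
    have hmem : ∀ i, ∀ v ∈ places (K i) p, lam i v ∈ Λ := fun i v hv =>
      Finset.mem_biUnion.2 ⟨i, Finset.mem_univ _, Finset.mem_image_of_mem _ hv⟩
    have hne : Λ.Nonempty := ⟨_, hmem i₀ v₀ hv₀⟩
    set t : ℝ := Λ.max' hne with ht
    have hle : ∀ i, ∀ v ∈ places (K i) p, lam i v ≤ t := fun i v hv => Finset.le_max' _ _ (hmem i v hv)
    have htT : 2 * Real.log R < t := by
      refine lt_of_lt_of_le ?_ (hle i₀ v₀ hv₀)
      by_contra h1
      exact absurd ((hiff i₀ v₀ hv₀).2 (not_lt.1 h1)) (not_le.2 hlt)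
    have ht0 : 0 < t := lt_of_le_of_lt (by have := Real.log_nonneg hR; linarith) htT
    obtain ⟨i₁, -, h1⟩ := Finset.mem_biUnion.1 (Finset.max'_mem Λ hne)
    obtain ⟨v₁, hv₁, h1⟩ := Finset.mem_image.1 h1
    rw [← ht] at h1
    -- a parameter of level `t`
    have hlog : ∀ (y : ℂ) (z : ℤ), Real.log ‖y ^ z‖ = z * Real.log ‖y‖ := by
      intro y z
      rw [norm_zpow, Real.log_zpow]
    have hkey : ∀ i, ∀ v ∈ places (K i) p, ∀ k ≤ (P i).natDegree,
        ∀ a ∈ Pool.Agent.U253.MF.adj k (α i v / β i v),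
        Real.log ‖a‖ / Pool.Agent.U253.NFD.fdeg (K i) v = t → k = (P i).natDegree ∧ lam i v = t := by
      intro i v hv k hk a ha hat
      unfold Pool.Agent.U253.MF.adj at ha
      obtain ⟨j, hj, rfl⟩ := List.mem_map.1 ha
      rw [List.mem_range] at hj
      rw [hlog] at hat
      set ℓ : ℝ := |Real.log ‖α i v / β i v‖| / Pool.Agent.U253.NFD.fdeg (K i) v with hℓ
      have hℓ0 : 0 ≤ ℓ := div_nonneg (abs_nonneg _) (hfR i v hv).le
      have hz : |(((j : ℤ) - k : ℤ) : ℝ)| ≤ k := by
        rw [abs_le]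
        constructor
        · push_cast
          have : (0 : ℝ) ≤ j := Nat.cast_nonneg j
          linarith
        · have : (j : ℝ) ≤ 2 * k := by exact_mod_cast Nat.lt_succ_iff.1 hj
          push_cast
          linarith
      have h2 : t ≤ k * ℓ := by
        rw [← hat, hℓ, ← mul_div_assoc]
        refine div_le_div_of_nonneg_right ?_ (hfR i v hv).le
        refine (le_abs_self _).trans ?_
        rw [abs_mul]
        exact mul_le_mul_of_nonneg_right hz (abs_nonneg _)
      have h3 : lam i v = (P i).natDegree * ℓ := by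
        rw [hlam, hℓ]
        simp only
        rw [mul_div_assoc]
      have h4 := hle i v hv
      have h5 : (k : ℝ) ≤ (P i).natDegree := by exact_mod_cast hk
      have hℓ1 : 0 < ℓ := by
        rcases hℓ0.lt_or_eq with h6 | h6
        · exact h6
        · rw [← h6, mul_zero] at h2
          linarith
      constructor
      · by_contra h6
        have h7 : (k : ℝ) < (P i).natDegree := by exact_mod_cast lt_of_le_of_ne hk h6
        have h8 := mul_lt_mul_of_pos_right h7 hℓ1
        rw [h3] at h4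
        linarith
      · have h8 := mul_le_mul_of_nonneg_right h5 hℓ0
        rw [h3] at h4 ⊢
        linarith
    have hlead : ∀ i, ∀ v ∈ places (K i) p, lam i v = t → 0 < c i (P i).natDegree := by
      intro i v hv hlt
      rw [hc2 i]
      have h2 : (P i).natDegree ≠ 0 := by
        intro h3
        have h4 : lam i v = 0 := by
          rw [hlam]
          simp only
          rw [h3, Nat.cast_zero, zero_mul, zero_div]
        linarith
      have h3 : (P i).leadingCoeff ≠ 0 := by
        intro h4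
        rw [Polynomial.leadingCoeff_eq_zero] at h4
        exact h2 (by rw [h4, Polynomial.natDegree_zero])
      rcases lt_or_gt_of_ne h3 with h4 | h4
      · have h5 := (hiff i v hv).1 (hneg i h4 v hv)
        linarith
      · exact h4
    have hterm : ∀ q : Q, ∀ v ∈ V q p, 0 ≤ cc q * ((f q v : ℝ) * ((E q v).map fun a =>
        (if Real.log ‖a‖ / f q v = t then (1 : ℝ) else 0)).sum) := by
      intro q v hv
      by_cases h2 : ((E q v).map fun a => (if Real.log ‖a‖ / f q v = t then (1 : ℝ) else 0)).sum = 0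
      · rw [h2, mul_zero, mul_zero]
      · have h3 : ∃ a ∈ E q v, Real.log ‖a‖ / f q v = t := by
          by_contra h4
          push Not at h4
          refine h2 (List.sum_eq_zero fun x hx => ?_)
          obtain ⟨a, ha, rfl⟩ := List.mem_map.1 hx
          exact if_neg (h4 a ha)
        obtain ⟨a, ha, h4⟩ := h3
        obtain ⟨h5, h6⟩ := hkey q.1 v hv q.2 (Nat.lt_succ_iff.1 q.2.2) a ha h4
        have h7 := hlead q.1 v hv h6
        rw [← h5] at h7
        refine mul_nonneg h7.le (mul_nonneg (Nat.cast_nonneg _) (List.sum_nonneg fun x hx => ?_))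
        obtain ⟨a, ha, rfl⟩ := List.mem_map.1 hx
        split_ifs <;> norm_num
    have hlev := Pool.Agent.U253.MF.level_multi (Q := Q) (ι := ι) (c := cc) (V := V) (f := f) (E := E) (p := p)
      (fun q v hv => hf q.1 p hp v hv)
      (fun q v hv a ha => Pool.Agent.U253.MF.adj_ne (hy q.1 p hp hpS v hv) a ha) (hz p hp hpS) t
    simp only [Finset.mul_sum] at hlev
    let q₁ : Q := ⟨i₁, ⟨(P i₁).natDegree, Nat.lt_succ_self _⟩⟩
    refine absurd hlev (ne_of_gt (Finset.sum_pos' (fun q _ => Finset.sum_nonneg (hterm q))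
      ⟨q₁, Finset.mem_univ _, Finset.sum_pos' (hterm q₁) ⟨v₁, hv₁, ?_⟩⟩))
    have hpos := hlead i₁ v₁ hv₁ h1
    refine mul_pos hpos (mul_pos (hfR i₁ v₁ hv₁) ?_)
    -- one of the two extreme exponents
    set d₁ : ℕ := (P i₁).natDegree with hd₁
    have hex : ∃ a ∈ E q₁ v₁, Real.log ‖a‖ / f q₁ v₁ = t := by
      have h2 : (d₁ : ℝ) * |Real.log ‖α i₁ v₁ / β i₁ v₁‖| / f q₁ v₁ = t := h1
      rcases le_total 0 (Real.log ‖α i₁ v₁ / β i₁ v₁‖) with h3 | h3
      · refine ⟨(α i₁ v₁ / β i₁ v₁) ^ (((2 * d₁ : ℕ) : ℤ) - d₁),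
          List.mem_map.2 ⟨2 * d₁, List.mem_range.2 (Nat.lt_succ_self _), rfl⟩, ?_⟩
        rw [hlog, ← h2, abs_of_nonneg h3]
        congr 2
        push_cast
        ring
      · refine ⟨(α i₁ v₁ / β i₁ v₁) ^ (((0 : ℕ) : ℤ) - d₁),
          List.mem_map.2 ⟨0, List.mem_range.2 (Nat.succ_pos _), rfl⟩, ?_⟩
        rw [hlog, ← h2, abs_of_nonpos h3]
        congr 1
        push_cast
        ring
    obtain ⟨a, ha, h2⟩ := hex
    refine lt_of_lt_of_le zero_lt_one (le_trans (le_of_eq (if_pos h2).symm)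
      (List.single_le_sum (fun x hx => ?_) _ (List.mem_map.2 ⟨a, ha, rfl⟩)))
    obtain ⟨a, ha, rfl⟩ := List.mem_map.1 hx
    split_ifs <;> norm_num
  refine ⟨?_, fun p hp hpS n hn => ?_, hmax, fun p hp hpS hneg i hi v hv => ?_⟩
  · -- the polynomials
    have h1 := Pool.Agent.U253.NFD.arch_list (Q := Q) (c := cc)
      (X := fun q => expo (Module.finrank ℚ (K q.1)) q.2)
      (m := fun q => (shifts (K q.1) q.2).toList) (m' := fun q => (shifts (K q.1) q.2).toList)
      (fun q z => by
        have e : ((shifts (K q.1) q.2).toList.map (Pool.Agent.U253.SPL.con z)).sum =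
            ((shifts (K q.1) q.2).map (Pool.Agent.U253.SPL.con z)).sum := by
          conv_rhs => rw [← Multiset.coe_toList (shifts (K q.1) q.2), Multiset.map_coe, Multiset.sum_coe]
        rw [e, expo_sum, shifts_sum]) harch
    -- the sums of the coefficients
    have h2 : ∀ t : ℕ, ∑ i, (Module.finrank ℚ (K i) : ℝ) *
        ∑ k ∈ Finset.range ((P i).natDegree + 1), (if t ≤ k then c i k else 0) = 0 := by
      intro t
      have h3 := h1 fun e => if e = (t : ℂ) then (1 : ℝ) else 0
      have h4 : ∀ q : Q, cc q * ((expo (Module.finrank ℚ (K q.1)) q.2).map fun e =>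
          (if e = (t : ℂ) then (1 : ℝ) else 0) + if -e = (t : ℂ) then (1 : ℝ) else 0).sum =
          2 * ((Module.finrank ℚ (K q.1) : ℝ) * if t ≤ (q.2 : ℕ) then c q.1 q.2 else 0) := by
        intro q
        rw [expo_sum]
        have h5 := count_level t q.2
        rw [h5]
        show c q.1 q.2 * _ = _
        split_ifs <;> ring
      simp only [h4] at h3
      rw [← Finset.mul_sum, Fintype.sum_sigma] at h3
      have h6 := (mul_eq_zero.1 h3).resolve_left two_ne_zero
      refine Eq.trans ?_ h6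
      refine Finset.sum_congr rfl fun i _ => ?_
      rw [Finset.mul_sum]
      exact (Fin.sum_univ_eq_sum_range (fun k => (Module.finrank ℚ (K i) : ℝ) *
        if t ≤ k then c i k else 0) _).symm
    have h3 : ∀ t : ℕ, ∑ i, (Module.finrank ℚ (K i) : ℝ) * c i t = 0 := by
      intro t
      have h4 := h2 t
      have h5 := h2 (t + 1)
      have h6 : ∀ i, ∑ k ∈ Finset.range ((P i).natDegree + 1), (if t ≤ k then c i k else 0) =
          ∑ k ∈ Finset.range ((P i).natDegree + 1), (if t + 1 ≤ k then c i k else 0) + c i t := by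
        intro i
        have h7 : ∑ k ∈ Finset.range ((P i).natDegree + 1), (if t ≤ k then c i k else 0) -
            ∑ k ∈ Finset.range ((P i).natDegree + 1), (if t + 1 ≤ k then c i k else 0) =
            ∑ k ∈ Finset.range ((P i).natDegree + 1), (if k = t then c i t else 0) := by
          rw [← Finset.sum_sub_distrib]
          refine Finset.sum_congr rfl fun k _ => ?_
          rcases lt_trichotomy k t with h8 | h8 | h8
          · rw [if_neg (by omega), if_neg (by omega), if_neg (by omega), sub_zero]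
          · subst h8
            rw [if_pos le_rfl, if_neg (by omega), if_pos rfl, sub_zero]
          · rw [if_pos (by omega), if_pos (by omega), if_neg (by omega), sub_self]
        rw [Finset.sum_ite_eq'] at h7
        by_cases h8 : t ∈ Finset.range ((P i).natDegree + 1)
        · rw [if_pos h8] at h7
          linarith
        · rw [if_neg h8] at h7
          rw [hc1 i t (by rw [Finset.mem_range] at h8; omega)]
          linarith
      simp only [h6, mul_add, Finset.sum_add_distrib] at h4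
      linarith
    have h4 : ∀ i, P i = ∑ k ∈ Finset.range (M + 1), C (c i k) * Pool.Agent.U253.MF.T k := by
      intro i
      conv_lhs => rw [hc3 i]
      refine Finset.sum_subset (Finset.range_subset_range.2 (Nat.succ_le_succ (hdM i))) fun k _ hk => ?_
      rw [hc1 i k (by rw [Finset.mem_range] at hk; omega), C_0, zero_mul]
    calc ∑ i, (Module.finrank ℚ (K i) : ℝ) • P i =
        ∑ i, ∑ k ∈ Finset.range (M + 1), C ((Module.finrank ℚ (K i) : ℝ) * c i k) * Pool.Agent.U253.MF.T k := by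
          refine Finset.sum_congr rfl fun i _ => ?_
          conv_lhs => rw [h4 i]
          rw [Finset.smul_sum]
          refine Finset.sum_congr rfl fun k _ => ?_
          rw [smul_eq_C_mul, C_mul, mul_assoc]
      _ = ∑ k ∈ Finset.range (M + 1), C (∑ i, (Module.finrank ℚ (K i) : ℝ) * c i k) * Pool.Agent.U253.MF.T k := by
          rw [Finset.sum_comm]
          refine Finset.sum_congr rfl fun k _ => ?_
          rw [map_sum, Finset.sum_mul]
      _ = 0 := by
          refine Finset.sum_eq_zero fun k _ => ?_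
          rw [h3 k, C_0, zero_mul]
  · -- the exact relation
    have h1 := Pool.Agent.U253.MF.pow_multi (Q := Q) (ι := ι) (c := cc) (V := V) (f := f) (E := E) (p := p)
      (fun q v hv => hf q.1 p hp v hv) (hz p hp hpS) hn
    have e : ∑ q : Q, (cc q : ℂ) * ∑ v ∈ (V q p).filter (fun v => f q v ∣ n), (f q v : ℂ) *
        ((E q v).map fun a => a ^ (n / f q v)).sum =
        ((∑ i, ∑ v ∈ (places (K i) p).filter (fun v => degree p v ∣ n), (degree p v : ℝ) *
          (P i).eval (‖α i v ^ (n / degree p v) + β i v ^ (n / degree p v)‖ ^ 2) : ℝ) : ℂ) := by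
      refine (hsum fun i k => (c i k : ℂ) * ∑ v ∈ (places (K i) p).filter
        (fun v => Pool.Agent.U253.NFD.fdeg (K i) v ∣ n), (Pool.Agent.U253.NFD.fdeg (K i) v : ℂ) *
        ((Pool.Agent.U253.MF.adj k (α i v / β i v)).map
          fun a => a ^ (n / Pool.Agent.U253.NFD.fdeg (K i) v)).sum).trans ?_
      rw [Complex.ofReal_sum]
      refine Finset.sum_congr rfl fun i _ => ?_
      rw [Complex.ofReal_sum, Finset.filter_congr fun v hv => by rw [hdeg i p hp v hv]]
      simp only [Finset.mul_sum]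
      rw [Finset.sum_comm]
      refine Finset.sum_congr rfl fun v hv => ?_
      have hv' := (Finset.mem_filter.1 hv).1
      rw [Complex.ofReal_mul, hval i ((hU i p hp hpS v hv').pow _), Finset.mul_sum]
      refine Finset.sum_congr rfl fun k _ => ?_
      rw [hdeg i p hp v hv', Pool.Agent.U253.MF.adj_pow, div_pow]
      push_cast
      ring
    rw [e] at h1
    exact_mod_cast h1
  · -- the bound
    have h1 := hmax p hp hpS 1 le_rfl (fun i' hi' v' hv' => by
      rw [one_pow]
      rcases Nat.eq_zero_or_pos (P i').natDegree with h2 | h2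
      · rw [h2, pow_zero]
      · obtain ⟨h3, -, -, -, -, -, h4⟩ := (hU i' p hp hpS v' hv').size
        exact pow_le_one₀ (zero_le_one.trans h3) (h4 (hneg i' h2 hi' v' hv'))) i v hv
    rw [one_pow] at h1
    obtain ⟨h3, -, -, -, -, h4, -⟩ := (hU i p hp hpS v hv).size
    refine h4 ?_
    by_contra h5
    exact absurd h1 (not_le.2 (one_lt_pow₀ (not_le.1 h5) hi.ne'))

end Pool.Agent.Results.MP_4819b8_nt.RelationsBetweenFields
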