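import Pool.Agent.U985.UW.Conv

/-!
# The Ramanujan-Petersson bound for weight-two Hecke characters of `GL_2`, uniformly in the level

Let `K` be any number field (any signature), `d = [K : ℚ]`, and let `θ` be a cuspidal character of the Hecke algebra
`𝕋_1(𝔫)` of the problem which is not dihedral; let `π` be the corresponding cuspidal automorphic representation. The
bound `|θ(T_v)| ≤ 2 √Nv` is not known for general `K` (it is known for totally real `K` and for CM fields), and Kim and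
Shahidi have shown that it holds for a fixed `π` at a set of places of lower density at least `34/35`. This says nothing on
the first places at which it holds, nor on several characters of varying levels. We prove, with constants **depending on `K`
only**, not on the levels or the characters:

1. the weighted mass `∑_v (log Nv / Nv) e^{-(log Nv)²/(2 s²)}` of the places `v ∤ 𝔫` with `|θ(T_v)| ≥ 2 √Nv` is at most
   `(1/35 + ε) √(π/2) s + (69/350 + ε) log N𝔫 + A`, and that of the places with `|θ(T_v)| < 2 √Nv` is at least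
   `(34/35 - ε) √(π/2) s - (69/350 + ε) log N𝔫 - A`, for all `s ≥ 1` and every `θ` (the mass of all places is
   `√(π/2) s + O(1)`);
2. let `θ_1, …, θ_r` be characters of levels `𝔫_1, …, 𝔫_r`, `m ≥ 1` and `x > 0` with
   `D = m ∫_0^x e^{-t²/2} dt - r √(π/2)/35 > 0`, and `c > 69 x / (350 D)`. Then, for every
   `P ≥ A (N𝔫_1 ⋯ N𝔫_r)^c`, there are at least `P^δ` places `v ∤ 𝔫_1 ⋯ 𝔫_r` with `Nv ≤ P` such that
   `|θ_i(T_v)| ≥ 2 √Nv` for fewer than `m` of the indices `i`;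
3. `r = m = 1`: the bound holds at at least `P^δ` places `v ∤ 𝔫`, `Nv ≤ P`, as soon as `P ≥ A (N𝔫)^{0.222}`;
4. `r ≤ 34`, `m = 1`: the bound holds for **all** of any `34` characters at the same `P^δ` places `v`, `Nv ≤ P`, as soon as
   `P ≥ A (N𝔫_1 ⋯ N𝔫_r)^{19}`;
5. for all `r < 35 m` there is a `c` such that it fails for fewer than `m` of any `r` characters, simultaneously at at
   least `P^δ` places `v`, `Nv ≤ P`, as soon as `P ≥ A (N𝔫_1 ⋯ N𝔫_r)^c`.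

`WeightTwo 𝔫 θ` lists what is used of `θ`. Here `α v 0, α v 1` are the Satake parameters of `π_v`, `v ∤ 𝔫`,
`θ(T_v) = √Nv (α v 0 + α v 1)`, and `symP k (α v)` are the Satake parameters of
`Π_k = Sym^k π ⊗ ω^{-⌊k/2⌋}`, `k = 0, …, 4`, `ω` the central character of `π`, so that `Π_0 = 1`, `Π_1 = π`, `Π_2 = Ad π`.
`Π_2`, `Π_3` and `Π_4` are automorphic (Gelbart and Jacquet; Kim and Shahidi; Kim) and cuspidal: `π` is not dihedral,
and neither tetrahedral nor octahedral, since its infinity type `(z/z̄)^{1/2}, (z/z̄)^{-1/2}` (weight two, at all places) has an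
infinite image in `PGL_2` (Kim and Shahidi). The structure `Rep` contains unitarity, the bounds of Jacquet and Shalika and
the absolute convergence of `L(s, Π_k × Π_k~)` for `Re s > 1`; `RS` the analytic continuation of `L(s, Π_i × Π_j~)`, with a
simple pole at `s = 1` if `i = j` and none if not, its polynomial growth in vertical strips and its functional equation, with
the arithmetic conductor `q i j` and `(i + 1)(j + 1) d` Gamma factors `Γ_ℝ(s + κ)`. For weight two all `κ` are real and lie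
in `[0, 5]` (at every archimedean place the parameter of `Π_i × Π_j~`, restricted to `ℂ^×`, consists of characters
`(z/z̄)^{m/2}`, `|m| ≤ 8`). The conductor: `q i j ≤ |d_K|^{(i+1)(j+1)} (N𝔫)^{max(i,j) (min(i,j) + 1)}`, since the conductor
exponent of `Π_{i,v} × Π_{j,v}~` is at most `max(i,j) (min(i,j) + 1)` times that of `π_v` (for a twist of the Steinberg
representation or a principal series by a direct computation, for a supercuspidal `π_v` since both its slopes are equal).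
The Eisenstein characters which are nontrivial in the sense of the problem, and the dihedral ones, satisfy the bound, since
they come from unitary Hecke characters.

The proof: a three lines (Poisson-Jensen) inequality for each `L(s, Π_i × Π_j~)` between `Re s = -σ₁` and `Re s = 1 + δ`,
averaged over the heights with a Gaussian weight (`Pool/Agent/U985/UI`, `Pool/Agent/U985/UK`), bounds the weighted sums of
`|λ_k|²`, `k = 1, …, 4`, and of `|1 + λ_4|²`; the identity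

  `(1 + 3 λ_2 + 5 λ_4)² + 40 = 6 |λ_1|² + 9 λ_2² + 30 |λ_3|² + 20 λ_4² + 5 (1 + λ_4)²`

(in which only self-pairings and the pair `(Π_0, Π_4)` occur) then bounds the sum of `(1 + 3 λ_2 + 5 λ_4)²` by `35` times
the mass of all places, and `1 + 3 λ_2 + 5 λ_4 ≥ 35` where the bound fails.
-/

set_option autoImplicit false

namespace Pool.Agent.Results.MP_4819b8_nt.WeightTwoUniform

open NumberField IsDedekindDomain
open Pool.Agent.N846.DU
open Pool.Agent.U985.UW (symP)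

/-- the weight `(log Nv / Nv) e^{-(log Nv)²/(2 s²)}` -/
noncomputable def wt {K : Type} [Field K] [NumberField K] (s : ℝ) (v : HeightOneSpectrum (𝓞 K)) : ℝ :=
  Real.log (Nv v) / Nv v * Real.exp (-(Real.log (Nv v)) ^ 2 / (2 * s ^ 2))

/-- A cuspidal character `θ` (`θ v` is the value at `T_v`) of the weight-two Hecke algebra of level `𝔫` which is not dihedral -/
structure WeightTwo {K : Type} [Field K] [NumberField K] (𝔫 : Ideal (𝓞 K))
    (θ : HeightOneSpectrum (𝓞 K) → ℂ) : Prop where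
  ne_bot : 𝔫 ≠ ⊥
  /-- `S` is the set of the places dividing `𝔫`, `u k` the coefficients of `Π_k` -/
  ex : ∃ (S : Finset (HeightOneSpectrum (𝓞 K))) (α : HeightOneSpectrum (𝓞 K) → Fin 2 → ℂ)
    (u : Fin 5 → VX K → ℂ) (q : Fin 5 → Fin 5 → ℝ)
    (κ : ∀ i j : Fin 5, Fin (((i : ℕ) + 1) * ((j : ℕ) + 1) * Module.finrank ℚ K) → ℂ),
    (∀ v, v ∈ S ↔ v.asIdeal ∣ 𝔫) ∧
    (∀ v, v ∉ S → θ v = ((√(Nv v) : ℝ) : ℂ) * (α v 0 + α v 1)) ∧
    (∀ k : Fin 5, Rep ((k : ℕ) + 1) S (fun v => symP k (α v)) (u k)) ∧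
    (∀ i j : Fin 5, RS (u i) (u j) (q i j) (κ i j) (if i = j then 1 else 0)) ∧
    (∀ i j : Fin 5, q i j ≤ |(discr K : ℝ)| ^ (((i : ℕ) + 1) * ((j : ℕ) + 1)) *
      (Ideal.absNorm 𝔫 : ℝ) ^ (max (i : ℕ) j * (min (i : ℕ) j + 1))) ∧
    ∀ i j l, ‖κ i j l‖ ≤ 5

theorem toDat {K : Type} [Field K] [NumberField K] {𝔫 : Ideal (𝓞 K)} {θ : HeightOneSpectrum (𝓞 K) → ℂ}
    (h : WeightTwo 𝔫 θ) : ∃ (S : Finset (HeightOneSpectrum (𝓞 K))) (α : HeightOneSpectrum (𝓞 K) → Fin 2 → ℂ),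
      U985.UW.Dat (25 * Module.finrank ℚ K) (U985.UW.BK K) S α (Ideal.absNorm 𝔫 : ℝ) ∧
      (∀ v, v ∉ S ↔ ¬ v.asIdeal ∣ 𝔫) ∧
      ∀ v, v ∉ S → (2 * √(Nv v) ≤ ‖θ v‖ ↔ 2 ≤ ‖∑ i, α v i‖) := by
  obtain ⟨S, α, u, q, κ, h1, h2, h3, h4, h5, h6⟩ := h.ex
  refine ⟨S, α, U985.UW.toDat h.ne_bot (fun v hv => (h1 v).1 hv) h3 h4 h5 h6, fun v => not_congr (h1 v), ?_⟩
  intro v hv
  have hN : 0 < √(Nv v) := Real.sqrt_pos.2 (Pool.Agent.U828.DU.D.Nv_pos v)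
  rw [h2 v hv, norm_mul, Complex.norm_real, Real.norm_of_nonneg hN.le, Fin.sum_univ_two, mul_comm (2 : ℝ),
    mul_le_mul_iff_right₀ hN]

open Classical in
/-- **The Ramanujan-Petersson bound for weight-two characters, uniformly in the level.** -/
theorem result (K : Type) [Field K] [NumberField K] :
    -- 1. masses
    (∀ ε : ℝ, 0 < ε → ∃ A : ℝ, ∀ (𝔫 : Ideal (𝓞 K)) (θ : HeightOneSpectrum (𝓞 K) → ℂ), WeightTwo 𝔫 θ →
      ∀ s : ℝ, 1 ≤ s →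
        (∀ G : Finset (HeightOneSpectrum (𝓞 K)), (∀ v ∈ G, ¬ v.asIdeal ∣ 𝔫 ∧ 2 * √(Nv v) ≤ ‖θ v‖) →
          ∑ v ∈ G, wt s v ≤
            (1 / 35 + ε) * (√(Real.pi / 2) * s) + (69 / 350 + ε) * Real.log (Ideal.absNorm 𝔫) + A) ∧
        ∃ G : Finset (HeightOneSpectrum (𝓞 K)), (∀ v ∈ G, ¬ v.asIdeal ∣ 𝔫 ∧ ‖θ v‖ < 2 * √(Nv v)) ∧
          (34 / 35 - ε) * (√(Real.pi / 2) * s) - (69 / 350 + ε) * Real.log (Ideal.absNorm 𝔫) - A ≤
            ∑ v ∈ G, wt s v) ∧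
    -- 2. several characters
    (∀ (r m : ℕ) (x c : ℝ), 1 ≤ m → 0 < x →
      0 < m * (∫ t in (0 : ℝ)..x, Real.exp (-t ^ 2 / 2)) - r * √(Real.pi / 2) / 35 →
      69 / 350 * x / (m * (∫ t in (0 : ℝ)..x, Real.exp (-t ^ 2 / 2)) - r * √(Real.pi / 2) / 35) < c →
      ∃ A δ : ℝ, 0 < A ∧ 0 < δ ∧ ∀ (𝔫 : Fin r → Ideal (𝓞 K)) (θ : Fin r → HeightOneSpectrum (𝓞 K) → ℂ),
        (∀ i, WeightTwo (𝔫 i) (θ i)) → ∀ P : ℝ, A * (∏ i, (Ideal.absNorm (𝔫 i) : ℝ)) ^ c ≤ P →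
          ∃ T : Finset (HeightOneSpectrum (𝓞 K)), P ^ δ ≤ (T.card : ℝ) ∧
            ∀ v ∈ T, Nv v ≤ P ∧ (∀ i, ¬ v.asIdeal ∣ 𝔫 i) ∧
              (Finset.univ.filter fun i => 2 * √(Nv v) ≤ ‖θ i v‖).card < m) ∧
    -- 3. one character
    (∃ A δ : ℝ, 0 < A ∧ 0 < δ ∧ ∀ (𝔫 : Ideal (𝓞 K)) (θ : HeightOneSpectrum (𝓞 K) → ℂ), WeightTwo 𝔫 θ →
      ∀ P : ℝ, A * (Ideal.absNorm 𝔫 : ℝ) ^ (0.222 : ℝ) ≤ P →
        ∃ T : Finset (HeightOneSpectrum (𝓞 K)), P ^ δ ≤ (T.card : ℝ) ∧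
          ∀ v ∈ T, Nv v ≤ P ∧ ¬ v.asIdeal ∣ 𝔫 ∧ ‖θ v‖ < 2 * √(Nv v)) ∧
    -- 4. up to `34` characters
    (∀ r : ℕ, r ≤ 34 → ∃ A δ : ℝ, 0 < A ∧ 0 < δ ∧
      ∀ (𝔫 : Fin r → Ideal (𝓞 K)) (θ : Fin r → HeightOneSpectrum (𝓞 K) → ℂ), (∀ i, WeightTwo (𝔫 i) (θ i)) →
      ∀ P : ℝ, A * (∏ i, (Ideal.absNorm (𝔫 i) : ℝ)) ^ (19 : ℝ) ≤ P →
        ∃ T : Finset (HeightOneSpectrum (𝓞 K)), P ^ δ ≤ (T.card : ℝ) ∧
          ∀ v ∈ T, Nv v ≤ P ∧ ∀ i, ¬ v.asIdeal ∣ 𝔫 i ∧ ‖θ i v‖ < 2 * √(Nv v)) ∧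
    -- 5. `r < 35 m`
    (∀ r m : ℕ, r < 35 * m → ∃ c A δ : ℝ, 0 < c ∧ 0 < A ∧ 0 < δ ∧
      ∀ (𝔫 : Fin r → Ideal (𝓞 K)) (θ : Fin r → HeightOneSpectrum (𝓞 K) → ℂ), (∀ i, WeightTwo (𝔫 i) (θ i)) →
      ∀ P : ℝ, A * (∏ i, (Ideal.absNorm (𝔫 i) : ℝ)) ^ c ≤ P →
        ∃ T : Finset (HeightOneSpectrum (𝓞 K)), P ^ δ ≤ (T.card : ℝ) ∧
          ∀ v ∈ T, Nv v ≤ P ∧ (∀ i, ¬ v.asIdeal ∣ 𝔫 i) ∧
            (Finset.univ.filter fun i => 2 * √(Nv v) ≤ ‖θ i v‖).card < m) := by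
  have main : ∀ (r m : ℕ) (x c : ℝ), 1 ≤ m → 0 < x →
      0 < m * (∫ t in (0 : ℝ)..x, Real.exp (-t ^ 2 / 2)) - r * √(Real.pi / 2) / 35 →
      69 / 350 * x / (m * (∫ t in (0 : ℝ)..x, Real.exp (-t ^ 2 / 2)) - r * √(Real.pi / 2) / 35) < c →
      ∃ A δ : ℝ, 0 < A ∧ 0 < δ ∧ ∀ (𝔫 : Fin r → Ideal (𝓞 K)) (θ : Fin r → HeightOneSpectrum (𝓞 K) → ℂ),
        (∀ i, WeightTwo (𝔫 i) (θ i)) → ∀ P : ℝ, A * (∏ i, (Ideal.absNorm (𝔫 i) : ℝ)) ^ c ≤ P →
          ∃ T : Finset (HeightOneSpectrum (𝓞 K)), P ^ δ ≤ (T.card : ℝ) ∧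
            ∀ v ∈ T, Nv v ≤ P ∧ (∀ i, ¬ v.asIdeal ∣ 𝔫 i) ∧
              (Finset.univ.filter fun i => 2 * √(Nv v) ≤ ‖θ i v‖).card < m := by
    intro r m x c hm hx hD hc
    obtain ⟨A, δ, hA, hδ, h⟩ := U985.UW.many K (25 * Module.finrank ℚ K) r m (U985.UW.one_le_BK K) hm hx hD hc
    refine ⟨A, δ, hA, hδ, fun 𝔫 θ hθ P hP => ?_⟩
    choose S α hdat hS hbad using fun i => toDat (hθ i)
    obtain ⟨T, hT1, hT2⟩ := h S α _ hdat P hP
    refine ⟨T, hT1, fun v hv => ⟨(hT2 v hv).1, fun i => (hS i v).1 ((hT2 v hv).2.1 i), ?_⟩⟩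
    refine lt_of_le_of_lt (Finset.card_le_card fun i hi => ?_) (hT2 v hv).2.2
    rw [Finset.mem_filter] at hi ⊢
    exact ⟨hi.1, (hbad i v ((hT2 v hv).2.1 i)).1 hi.2⟩
  refine ⟨?_, main, ?_, ?_, ?_⟩
  · intro ε hε
    obtain ⟨A₁, hA1, h1⟩ := U985.UW.bad_one K (25 * Module.finrank ℚ K) (U985.UW.one_le_BK K) hε
    obtain ⟨A₂, hA2, h2⟩ := U985.UW.good_one K (25 * Module.finrank ℚ K) (U985.UW.one_le_BK K) hε
    refine ⟨A₁ + A₂, fun 𝔫 θ hθ s hs => ?_⟩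
    obtain ⟨S, α, hdat, hS, hbad⟩ := toDat hθ
    refine ⟨fun G hG => ?_, ?_⟩
    · refine (h1 S α _ hdat s hs G fun v hv => ?_).trans (by linarith)
      have hv' := (hS v).2 (hG v hv).1
      exact ⟨hv', (hbad v hv').1 (hG v hv).2⟩
    · obtain ⟨G, hG1, hG2⟩ := h2 S α _ hdat s hs
      refine ⟨G, fun v hv => ⟨(hS v).1 (hG1 v hv).1, ?_⟩, le_trans (by linarith) hG2⟩
      rw [← not_le, hbad v (hG1 v hv).1, not_le]
      exact (hG1 v hv).2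
  · obtain ⟨A, δ, hA, hδ, h⟩ := main 1 1 (1 / 2) 0.222 le_rfl (by norm_num) U985.UW.c_one.1
      (lt_of_lt_of_eq U985.UW.c_one.2 (by norm_num))
    refine ⟨A, δ, hA, hδ, fun 𝔫 θ hθ P hP => ?_⟩
    obtain ⟨T, hT1, hT2⟩ := h (fun _ => 𝔫) (fun _ => θ) (fun _ => hθ) P (by simpa using hP)
    refine ⟨T, hT1, fun v hv => ⟨(hT2 v hv).1, (hT2 v hv).2.1 0, ?_⟩⟩
    have h1 := (hT2 v hv).2.2
    rw [Nat.lt_one_iff, Finset.card_eq_zero, Finset.filter_eq_empty_iff] at h1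
    exact not_le.1 (h1 (Finset.mem_univ 0))
  · intro r hr
    obtain ⟨A, δ, hA, hδ, h⟩ := main r 1 3 19 le_rfl (by norm_num) (U985.UW.c_many hr).1 (U985.UW.c_many hr).2
    refine ⟨A, δ, hA, hδ, fun 𝔫 θ hθ P hP => ?_⟩
    obtain ⟨T, hT1, hT2⟩ := h 𝔫 θ hθ P hP
    refine ⟨T, hT1, fun v hv => ⟨(hT2 v hv).1, fun i => ⟨(hT2 v hv).2.1 i, ?_⟩⟩⟩
    have h1 := (hT2 v hv).2.2
    rw [Nat.lt_one_iff, Finset.card_eq_zero, Finset.filter_eq_empty_iff] at h1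
    exact not_le.1 (h1 (Finset.mem_univ i))
  · intro r m hrm
    obtain ⟨x, c, hx, hD, hc, hc0⟩ := U985.UW.c_exists hrm
    obtain ⟨A, δ, hA, hδ, h⟩ := main r m x c (by omega) hx hD hc
    exact ⟨c, A, δ, hc0, hA, hδ, h⟩

end Pool.Agent.Results.MP_4819b8_nt.WeightTwoUniform
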